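import Pool.Agent.H80.AG.Targets9

/-!
# Limits of probability measures on a compact space
-/

set_option autoImplicit false

open MeasureTheory ProbabilityTheory Filter Topology Finset
open scoped Nat ENNReal BoundedContinuousFunction

namespace Pool.Agent.H50.AG

open Pool.Agent.H67.AG Pool.Agent.H80.AG

theorem pf_CPL : T_CPL := by
  classical
  intro Ω _ _ _ _ _ _ U P hP
  obtain ⟨n₀, hn₀⟩ := hP.exists
  let _ : TopologicalSpace.MetrizableSpace Ω :=
    TopologicalSpace.metrizableSpace_of_t3_secondCountable Ω
  let _ := TopologicalSpace.metrizableSpaceMetric Ω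
  let P' : ℕ → ProbabilityMeasure Ω := fun n =>
    if h : IsProbabilityMeasure (P n) then ⟨P n, h⟩ else ⟨P n₀, hn₀⟩
  have hlim : Tendsto P' (U : Filter ℕ) (𝓝 (U.map P').lim) := (U.map P').le_nhds_lim
  have h1 := ProbabilityMeasure.tendsto_iff_forall_integral_tendsto.1 hlim
  refine ⟨((U.map P').lim : Measure Ω), inferInstance, fun f => ?_⟩
  refine (h1 (BoundedContinuousFunction.mkOfCompact f)).congr' ?_
  filter_upwards [hP] with n hn
  simp only [P', dif_pos hn]
  rfl

end Pool.Agent.H50.AG
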