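import Pool.Agent.H80.AG.Targets9

/-!
# From the average over the whole system to almost every component
-/

set_option autoImplicit false

open MeasureTheory ProbabilityTheory Filter Topology Finset
open scoped Nat ENNReal

namespace Pool.Agent.H50.AG

open Pool.Agent.H67.AG Pool.Agent.H80.AG

theorem preimage_iter {Ω : Type} {T : Ω → Ω} {W : ℕ} {s : Set Ω} (h : T^[W] ⁻¹' s = s) (y : ℕ) :
    T^[W * y] ⁻¹' s = s := by
  rw [Function.iterate_mul]
  induction y with
  | zero => rfl
  | succ y ih =>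
    rw [Function.iterate_succ, Set.preimage_comp, ih, h]

theorem pf_MRC : T_MRC := by
  intro Ω _ _ P _ T κ _ D W hD hD1 hW hP hinv hmr
  have hDb : ∀ ω, |D ω| ≤ 1 := by
    intro ω
    rcases hD1 ω with h | h <;> rw [h] <;> norm_num
  set S : ℕ → Ω → ℝ := fun h ω => ∑ y ∈ range (h + 1), D (T^[W * y] ω) with hS
  have hit : ∀ n, Measurable (T^[n]) := fun n => T.measurable.iterate n
  have hSm : ∀ h, Measurable (S h) := by
    intro h
    exact Finset.measurable_sum _ fun y _ => hD.comp (hit (W * y))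
  set A : ℕ → Ω → ℝ := fun h ω => |S h ω| / ((h : ℝ) + 1) with hA
  have hAm : ∀ h, Measurable (A h) := fun h => (hSm h).abs.div_const _
  have hSb : ∀ h ω, |S h ω| ≤ (h : ℝ) + 1 := by
    intro h ω
    calc |S h ω| ≤ ∑ y ∈ range (h + 1), |D (T^[W * y] ω)| := Finset.abs_sum_le_sum_abs _ _
      _ ≤ ∑ y ∈ range (h + 1), (1 : ℝ) := Finset.sum_le_sum fun y _ => hDb _
      _ = (h : ℝ) + 1 := by simp
  have hA0 : ∀ h ω, 0 ≤ A h ω := fun h ω => by positivity
  have hA1 : ∀ h ω, A h ω ≤ 1 := by
    intro h ω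
    rw [hA]
    simp only
    rw [div_le_one (by positivity)]
    exact hSb h ω
  have hbind : P.bind κ = P := by
    ext B hB
    rw [Measure.bind_apply hB κ.measurable.aemeasurable, hP B hB]
  have hFm : ∀ h, Measurable fun ω => ∫⁻ x, ENNReal.ofReal (A h x) ∂(κ ω) :=
    fun h => (hAm h).ennreal_ofReal.lintegral_kernel
  have hFint : ∀ h, ∫⁻ ω, (∫⁻ x, ENNReal.ofReal (A h x) ∂(κ ω)) ∂P =
      ∫⁻ x, ENNReal.ofReal (A h x) ∂P := by
    intro h
    have h1 := Measure.lintegral_bind (m := P) (μ := κ) (f := fun x => ENNReal.ofReal (A h x))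
      κ.measurable.aemeasurable (hAm h).ennreal_ofReal.aemeasurable
    rw [hbind] at h1
    exact h1.symm
  have htend : Tendsto (fun h => ∫⁻ ω, (∫⁻ x, ENNReal.ofReal (A h x) ∂(κ ω)) ∂P) atTop (𝓝 0) := by
    rw [ENNReal.tendsto_nhds_zero]
    intro ε hε
    obtain ⟨δ, hδ0, hδ⟩ : ∃ δ : ℝ, 0 < δ ∧ ENNReal.ofReal δ + ENNReal.ofReal δ ≤ ε := by
      by_cases hε1 : ε = ⊤
      · exact ⟨1, one_pos, by rw [hε1]; exact le_top⟩
      · have h1 : 0 < ε.toReal := ENNReal.toReal_pos hε.ne' hε1
        refine ⟨ε.toReal / 2, by positivity, ?_⟩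
        rw [← ENNReal.ofReal_add (by positivity) (by positivity), add_halves,
          ENNReal.ofReal_toReal hε1]
    obtain ⟨h₀, hh₀⟩ := hmr δ hδ0
    filter_upwards [eventually_ge_atTop h₀] with h hh
    rw [hFint]
    have h1 := hh₀ (h + 1) (by omega)
    have h2 : ∀ x, ENNReal.ofReal (A h x) ≤ ENNReal.ofReal δ +
        ({ω | δ * ((h + 1 : ℕ) : ℝ) ≤ |S h ω|} : Set Ω).indicator (fun _ => (1 : ℝ≥0∞)) x := by
      intro x
      by_cases hx : δ * ((h + 1 : ℕ) : ℝ) ≤ |S h x|
      · rw [Set.indicator_of_mem (show x ∈ {ω | δ * ((h + 1 : ℕ) : ℝ) ≤ |S h ω|} from hx)]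
        calc ENNReal.ofReal (A h x) ≤ ENNReal.ofReal 1 := ENNReal.ofReal_le_ofReal (hA1 h x)
          _ = 1 := ENNReal.ofReal_one
          _ ≤ _ := le_add_self
      · rw [Set.indicator_of_notMem (show x ∉ {ω | δ * ((h + 1 : ℕ) : ℝ) ≤ |S h ω|} from hx),
          add_zero]
        refine ENNReal.ofReal_le_ofReal ?_
        rw [hA]
        simp only
        rw [div_le_iff₀ (by positivity)]
        have := not_le.1 hx
        push_cast at this
        exact this.le
    have hms : MeasurableSet {ω | δ * ((h + 1 : ℕ) : ℝ) ≤ |S h ω|} :=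
      measurableSet_le measurable_const (hSm h).abs
    calc ∫⁻ x, ENNReal.ofReal (A h x) ∂P ≤ ∫⁻ x, (ENNReal.ofReal δ +
          ({ω | δ * ((h + 1 : ℕ) : ℝ) ≤ |S h ω|} : Set Ω).indicator
            (fun _ => (1 : ℝ≥0∞)) x) ∂P := lintegral_mono h2
      _ = ENNReal.ofReal δ + P {ω | δ * ((h + 1 : ℕ) : ℝ) ≤ |S h ω|} := by
          rw [lintegral_add_left measurable_const, lintegral_const, measure_univ, mul_one,
            lintegral_indicator_const hms, one_mul]
      _ ≤ ENNReal.ofReal δ + ENNReal.ofReal δ := by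
          gcongr
          rw [← ENNReal.ofReal_toReal (measure_ne_top P {ω | δ * ((h + 1 : ℕ) : ℝ) ≤ |S h ω|})]
          exact ENNReal.ofReal_le_ofReal h1
      _ ≤ ε := hδ
  have hlim : ∫⁻ ω, liminf (fun h => ∫⁻ x, ENNReal.ofReal (A h x) ∂(κ ω)) atTop ∂P = 0 := by
    refine le_antisymm ?_ zero_le
    refine (lintegral_liminf_le hFm).trans ?_
    rw [htend.liminf_eq]
  have hae : ∀ᵐ ω ∂P, liminf (fun h => ∫⁻ x, ENNReal.ofReal (A h x) ∂(κ ω)) atTop = 0 := by
    have h1 := (lintegral_eq_zero_iff (Measurable.liminf hFm)).1 hlim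
    filter_upwards [h1] with ω hω
    exact hω
  filter_upwards [hinv, hae] with ω h1 h2
  have hle : Inv T W ≤ (inferInstance : MeasurableSpace Ω) := MeasurableSpace.invariants_le _
  have hDi : Integrable D (κ ω) :=
    Integrable.of_bound hD.aestronglyMeasurable 1 (ae_of_all _ fun x => by
      rw [Real.norm_eq_abs]
      exact hDb x)
  have hSi : ∀ h, Integrable (S h) (κ ω) := fun h =>
    Integrable.of_bound (hSm h).aestronglyMeasurable ((h : ℝ) + 1) (ae_of_all _ fun x => by
      rw [Real.norm_eq_abs]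
      exact hSb h x)
  have key : ∀ s, MeasurableSet[Inv T W] s → ∫ x in s, D x ∂(κ ω) = 0 := by
    intro s hs
    obtain ⟨hs1, hs2⟩ := MeasurableSpace.measurableSet_invariants.1 hs
    have h3 : ∀ h : ℕ, |∫ x in s, D x ∂(κ ω)| ≤
        (∫⁻ x, ENNReal.ofReal (A h x) ∂(κ ω)).toReal := by
      intro h
      have h4 : ∀ y, ∫ x in s, D (T^[W * y] x) ∂(κ ω) = ∫ x in s, D x ∂(κ ω) := by
        intro y
        rw [← integral_indicator hs1, ← integral_indicator hs1]
        have h5 : ∀ x, s.indicator (fun x => D (T^[W * y] x)) x =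
            s.indicator D (T^[W * y] x) := by
          intro x
          have h6 : T^[W * y] x ∈ s ↔ x ∈ s := by
            have h7 := preimage_iter hs2 y
            constructor
            · intro h8
              rw [← h7]
              exact h8
            · intro h8
              rw [← h7] at h8
              exact h8
          by_cases hx : x ∈ s
          · rw [Set.indicator_of_mem hx, Set.indicator_of_mem (h6.2 hx)]
          · rw [Set.indicator_of_notMem hx, Set.indicator_of_notMem fun h => hx (h6.1 h)]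
        rw [integral_congr_ae (ae_of_all _ h5)]
        have h9 := (h1.iterate (W * y)).map_eq
        conv_rhs => rw [← h9]
        rw [integral_map (hit (W * y)).aemeasurable
          (hD.indicator hs1).aestronglyMeasurable]
      have h5 : ∫ x in s, S h x ∂(κ ω) = ((h : ℝ) + 1) * ∫ x in s, D x ∂(κ ω) := by
        rw [hS]
        simp only
        rw [integral_finsetSum]
        · rw [Finset.sum_congr rfl (fun y _ => h4 y), Finset.sum_const, Finset.card_range,
            nsmul_eq_mul]
          push_cast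
          ring
        · intro y _
          exact (Integrable.of_bound (hD.comp (hit (W * y))).aestronglyMeasurable 1
            (ae_of_all _ fun x => by
              rw [Real.norm_eq_abs]
              exact hDb _))
      have hh : (0 : ℝ) < (h : ℝ) + 1 := by positivity
      have h6 : ((h : ℝ) + 1) * |∫ x in s, D x ∂(κ ω)| ≤ ∫ x, |S h x| ∂(κ ω) := by
        calc ((h : ℝ) + 1) * |∫ x in s, D x ∂(κ ω)| = |∫ x in s, S h x ∂(κ ω)| := by
              rw [h5, abs_mul, abs_of_pos hh]
          _ ≤ ∫ x in s, |S h x| ∂(κ ω) := abs_integral_le_integral_abs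
          _ ≤ ∫ x, |S h x| ∂(κ ω) :=
              setIntegral_le_integral (hSi h).abs (ae_of_all _ fun x => abs_nonneg _)
      have h7 : ∫ x, A h x ∂(κ ω) = (∫ x, |S h x| ∂(κ ω)) / ((h : ℝ) + 1) :=
        integral_div _ _
      have h8 : ∫ x, A h x ∂(κ ω) = (∫⁻ x, ENNReal.ofReal (A h x) ∂(κ ω)).toReal :=
        integral_eq_lintegral_of_nonneg_ae (ae_of_all _ (hA0 h)) (hAm h).aestronglyMeasurable
      rw [← h8, h7, le_div_iff₀ hh]
      linarith
    have h4 : |∫ x in s, D x ∂(κ ω)| ≤ 0 := by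
      refine le_of_forall_pos_le_add fun ε hε => ?_
      rw [zero_add]
      have h5 : ∃ᶠ h in atTop, (∫⁻ x, ENNReal.ofReal (A h x) ∂(κ ω)) < ENNReal.ofReal ε := by
        refine frequently_lt_of_liminf_lt (by isBoundedDefault) ?_
        rw [h2]
        exact ENNReal.ofReal_pos.2 hε
      obtain ⟨h, hh⟩ := h5.exists
      refine (h3 h).trans ?_
      have h6 := ENNReal.toReal_mono ENNReal.ofReal_ne_top hh.le
      rwa [ENNReal.toReal_ofReal hε.le] at h6
    exact abs_eq_zero.1 (le_antisymm h4 (abs_nonneg _))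
  refine (ae_eq_condExp_of_forall_setIntegral_eq hle hDi (fun s _ _ => integrableOn_zero)
    (fun s hs _ => ?_) ?_).symm
  · rw [key s hs]
    simp
  · exact stronglyMeasurable_zero.aestronglyMeasurable

end Pool.Agent.H50.AG
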