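import Pool.Agent.H38.AG.Targets

/-!
# Boxes of `S`-units
-/

set_option autoImplicit false

open Pool.Agent.H38.RB Pool.Agent.H38.PS Pool.Agent.H82.RD Pool.Agent.H38.AB Pool.Agent.H38.AG

namespace Pool.Agent.H50.AG

/-- the unit given by a number which is prime to `M` -/
noncomputable def un (M l : ℕ) : (ZMod M)ˣ := by
  classical
  exact if h : l.Coprime M then ZMod.unitOfCoprime l h else 1

theorem un_coe {M l : ℕ} (h : l.Coprime M) : ((un M l : (ZMod M)ˣ) : ZMod M) = (l : ZMod M) := by
  unfold un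
  rw [dif_pos h]
  exact ZMod.coe_unitOfCoprime l h

theorem un_prod {M : ℕ} {S : Finset ℕ} (hS : ∀ u ∈ S, u.Coprime M) (a : ℕ → ℕ) :
    ((∏ l ∈ S, un M l ^ a l : (ZMod M)ˣ) : ZMod M) = ∏ l ∈ S, (l : ZMod M) ^ a l := by
  rw [Units.coe_prod]
  refine Finset.prod_congr rfl fun l hl => ?_
  rw [Units.val_pow_eq_pow_val, un_coe (hS l hl)]

theorem mem_Hb {M V : ℕ} [NeZero M] {S : Finset ℕ} (hS : ∀ u ∈ S, u.Coprime M)
    {z : (ZMod M)ˣ} : z ∈ Hb M S V ↔
    ∃ k : ℕ → ℤ, (∀ l, |k l| ≤ (V : ℤ)) ∧ z = ∏ l ∈ S, un M l ^ k l := by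
  classical
  unfold Hb
  simp only [Finset.mem_filter, Finset.mem_univ, true_and]
  constructor
  · rintro ⟨α, γ, h1, h2⟩
    refine ⟨fun l => (γ l : ℤ) - α l, fun l => ?_, ?_⟩
    · have := h1 l
      simp only
      rw [abs_le]
      constructor <;> omega
    · rw [← un_prod hS, ← un_prod hS, ← Units.val_mul] at h2
      have h3 := Units.ext h2
      have h4 : ∏ l ∈ S, un M l ^ ((γ l : ℤ) - α l) =
          (∏ l ∈ S, un M l ^ γ l) * (∏ l ∈ S, un M l ^ α l)⁻¹ := by
        rw [← Finset.prod_inv_distrib, ← Finset.prod_mul_distrib]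
        refine Finset.prod_congr rfl fun l _ => ?_
        rw [zpow_sub, zpow_natCast, zpow_natCast]
      rw [h4, ← h3, mul_inv_cancel_right]
  · rintro ⟨k, h1, rfl⟩
    refine ⟨fun l => (-k l).toNat, fun l => (k l).toNat, fun l => ?_, ?_⟩
    · have := abs_le.1 (h1 l)
      simp only
      constructor <;> omega
    · rw [← un_prod hS, ← un_prod hS, ← Units.val_mul, ← Finset.prod_mul_distrib]
      congr 1
      refine Finset.prod_congr rfl fun l _ => ?_
      rw [← zpow_natCast, ← zpow_natCast, ← zpow_add]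
      congr 1
      omega

theorem pf_BOX : T_BOX := by
  classical
  intro M V _ S hS
  refine ⟨?_, ?_, ?_, ?_⟩
  · rw [mem_Hb hS]
    exact ⟨fun _ => 0, fun l => by simp, by simp⟩
  · intro z hz
    rw [mem_Hb hS] at hz ⊢
    obtain ⟨k, h1, rfl⟩ := hz
    refine ⟨fun l => -k l, fun l => by rw [abs_neg]; exact h1 l, ?_⟩
    rw [← Finset.prod_inv_distrib]
    refine Finset.prod_congr rfl fun l _ => ?_
    rw [zpow_neg]
  · intro V' z z' hz hz'
    rw [mem_Hb hS] at hz hz' ⊢
    obtain ⟨k, h1, rfl⟩ := hz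
    obtain ⟨k', h1', rfl⟩ := hz'
    refine ⟨fun l => k l + k' l, fun l => ?_, ?_⟩
    · push_cast
      exact (abs_add_le _ _).trans (add_le_add (h1 l) (h1' l))
    · rw [← Finset.prod_mul_distrib]
      refine Finset.prod_congr rfl fun l _ => ?_
      rw [zpow_add]
  · have h1 : Hb M S (2 * V) ⊆ (S.powerset ×ˢ Hb M S V).image
        (fun t => (∏ l ∈ S, un M l ^ (if l ∈ t.1 then (V : ℤ) else -(V : ℤ))) * t.2) := by
      intro z hz
      rw [mem_Hb hS] at hz
      obtain ⟨k, h2, rfl⟩ := hz
      rw [Finset.mem_image]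
      refine ⟨(S.filter (fun l => 0 ≤ k l), ∏ l ∈ S, un M l ^
        (k l - (if l ∈ S.filter (fun l => 0 ≤ k l) then (V : ℤ) else -(V : ℤ)))), ?_, ?_⟩
      · rw [Finset.mem_product]
        refine ⟨Finset.mem_powerset.2 (Finset.filter_subset _ _), ?_⟩
        rw [mem_Hb hS]
        refine ⟨fun l => if l ∈ S then
          (k l - (if l ∈ S.filter (fun l => 0 ≤ k l) then (V : ℤ) else -(V : ℤ))) else 0,
          fun l => ?_, ?_⟩
        · have h3 := abs_le.1 (h2 l)
          push_cast at h3
          simp only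
          by_cases hl : l ∈ S
          · rw [if_pos hl]
            by_cases hk : 0 ≤ k l
            · rw [if_pos (Finset.mem_filter.2 ⟨hl, hk⟩), abs_le]
              constructor <;> omega
            · have hk' : l ∉ S.filter (fun l => 0 ≤ k l) :=
                fun h => hk (Finset.mem_filter.1 h).2
              rw [if_neg hk', abs_le]
              constructor <;> omega
          · rw [if_neg hl, abs_zero]
            omega
        · refine Finset.prod_congr rfl fun l hl => ?_
          simp only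
          rw [if_pos hl]
      · simp only
        rw [← Finset.prod_mul_distrib]
        refine Finset.prod_congr rfl fun l _ => ?_
        rw [← zpow_add]
        congr 1
        ring
    calc (Hb M S (2 * V)).card ≤ _ := Finset.card_le_card h1
      _ ≤ (S.powerset ×ˢ Hb M S V).card := Finset.card_image_le
      _ = 2 ^ S.card * (Hb M S V).card := by rw [Finset.card_product, Finset.card_powerset]

end Pool.Agent.H50.AG
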