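import Pool.Agent.H38.AG.Targets

/-!
# Numbers with a large smooth part
-/

set_option autoImplicit false

open Pool.Agent.H38.RB Pool.Agent.H38.PS Pool.Agent.H82.RD Pool.Agent.H38.AB Pool.Agent.H38.AG

namespace Pool.Agent.H50.AG

theorem sum_rpow_le {a : ℝ} (ha : 0 < a) (ha1 : a ≤ 1) (N : ℕ) :
    ∑ n ∈ Finset.Icc 1 N, (n : ℝ) ^ (a - 1) ≤ (N : ℝ) ^ a / a := by
  induction N with
  | zero =>
    rw [Nat.cast_zero, Real.zero_rpow ha.ne', zero_div]
    simp
  | succ N ih =>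
    rw [Finset.sum_Icc_succ_top (by omega)]
    have hN : (0 : ℝ) < (N : ℝ) + 1 := by positivity
    have h1 : (N : ℝ) ^ a ≤ ((N : ℝ) + 1) ^ a * (1 - a / ((N : ℝ) + 1)) := by
      have h2 : (N : ℝ) = ((N : ℝ) + 1) * (1 + (-(1 / ((N : ℝ) + 1)))) := by
        field_simp
        ring
      have h4 : 1 / ((N : ℝ) + 1) ≤ 1 := by
        rw [div_le_one hN]
        have : (0 : ℝ) ≤ N := Nat.cast_nonneg N
        linarith
      have h3 := rpow_one_add_le_one_add_mul_self (s := -(1 / ((N : ℝ) + 1)))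
        (by linarith) ha.le ha1
      calc (N : ℝ) ^ a = (((N : ℝ) + 1) * (1 + (-(1 / ((N : ℝ) + 1))))) ^ a := by rw [← h2]
        _ = ((N : ℝ) + 1) ^ a * (1 + (-(1 / ((N : ℝ) + 1)))) ^ a :=
          Real.mul_rpow hN.le (by linarith)
        _ ≤ ((N : ℝ) + 1) ^ a * (1 + a * (-(1 / ((N : ℝ) + 1)))) :=
          mul_le_mul_of_nonneg_left h3 (by positivity)
        _ = ((N : ℝ) + 1) ^ a * (1 - a / ((N : ℝ) + 1)) := by ring
    have h5 : ((N : ℝ) + 1) ^ (a - 1) = ((N : ℝ) + 1) ^ a / ((N : ℝ) + 1) := by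
      rw [Real.rpow_sub hN, Real.rpow_one]
    push_cast
    rw [h5]
    have h6 : ((N : ℝ) + 1) ^ a / ((N : ℝ) + 1) =
        (((N : ℝ) + 1) ^ a - ((N : ℝ) + 1) ^ a * (1 - a / ((N : ℝ) + 1))) / a := by
      field_simp
      ring
    rw [h6]
    calc ∑ n ∈ Finset.Icc 1 N, (n : ℝ) ^ (a - 1) +
        (((N : ℝ) + 1) ^ a - ((N : ℝ) + 1) ^ a * (1 - a / ((N : ℝ) + 1))) / a ≤
        (N : ℝ) ^ a / a + (((N : ℝ) + 1) ^ a - (N : ℝ) ^ a) / a := by
          refine add_le_add ih ?_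
          exact div_le_div_of_nonneg_right (by linarith) ha.le
      _ = ((N : ℝ) + 1) ^ a / a := by ring

theorem sum_powerset_le {P : Finset ℕ} {N : ℕ} (hP : P ⊆ Finset.Icc 1 N) {a : ℝ} (ha : 0 < a)
    (ha1 : a ≤ 1) : ∑ T ∈ P.powerset, (pd T : ℝ) ^ (a - 1) ≤ Real.exp ((N : ℝ) ^ a / a) := by
  have h1 : ∀ T ∈ P.powerset, (pd T : ℝ) ^ (a - 1) = ∏ p ∈ T, (p : ℝ) ^ (a - 1) := by
    intro T _
    unfold pd
    push_cast
    rw [Real.finsetProd_rpow _ _ (fun _ _ => by positivity)]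
  rw [Finset.sum_congr rfl h1, ← Finset.prod_one_add]
  calc ∏ p ∈ P, (1 + (p : ℝ) ^ (a - 1)) ≤ ∏ p ∈ P, Real.exp ((p : ℝ) ^ (a - 1)) := by
        refine Finset.prod_le_prod (fun _ _ => by positivity) fun p _ => ?_
        rw [add_comm]
        exact Real.add_one_le_exp _
    _ = Real.exp (∑ p ∈ P, (p : ℝ) ^ (a - 1)) := (Real.exp_sum _ _).symm
    _ ≤ Real.exp ((N : ℝ) ^ a / a) := by
        refine Real.exp_le_exp.2 (le_trans ?_ (sum_rpow_le ha ha1 N))
        exact Finset.sum_le_sum_of_subset_of_nonneg hP (fun _ _ _ => by positivity)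

theorem pf_RKN : T_RKN := by
  classical
  intro K δ hK hδ
  have hK0 : 0 < K := by linarith
  refine ⟨Real.exp (4 * K ^ 3 / δ), Real.exp_pos _, fun X Z hX hZ => ?_⟩
  have hX0 : 0 < X := by linarith
  set L : ℝ := Real.log X with hL
  have hL1 : 1 ≤ L := by
    rw [hL, Real.le_log_iff_exp_le hX0]
    exact Real.exp_one_lt_three.le.trans hX
  have hL0 : 0 < L := by linarith
  set y : ℝ := L ^ K with hy
  have hy0 : 0 < y := Real.rpow_pos_of_pos hL0 K
  set a : ℝ := 1 / (2 * K) with ha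
  have ha0 : 0 < a := by positivity
  have ha1 : a ≤ 1 := by
    rw [ha, div_le_one (by positivity)]
    linarith
  set P : Finset ℕ := (Finset.Icc 1 ⌊y⌋₊).filter Nat.Prime with hP
  set A : Finset ℕ := (Finset.Icc 1 ⌊Z⌋₊).filter fun s => Squarefree s ∧
    X ^ δ ≤ (pd (s.primeFactors.filter fun p : ℕ => (p : ℝ) ≤ y) : ℝ) with hA
  have hmap : ∀ s ∈ A, (s.primeFactors.filter fun p : ℕ => (p : ℝ) ≤ y) ∈ P.powerset := by
    intro s _
    rw [Finset.mem_powerset]
    intro p hp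
    obtain ⟨h1, h2⟩ := Finset.mem_filter.1 hp
    have h3 := Nat.prime_of_mem_primeFactors h1
    rw [hP, Finset.mem_filter, Finset.mem_Icc]
    exact ⟨⟨h3.one_lt.le, Nat.le_floor h2⟩, h3⟩
  have hcard := Finset.card_eq_sum_card_fiberwise hmap
  have hfib : ∀ T ∈ P.powerset, ((A.filter fun s =>
      (s.primeFactors.filter fun p : ℕ => (p : ℝ) ≤ y) = T).card : ℝ) ≤
      Z * X ^ (-(δ * a)) * (pd T : ℝ) ^ (a - 1) := by
    intro T hT
    have hTP := Finset.mem_powerset.1 hT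
    have hpd : 0 < pd T := by
      unfold pd
      refine Finset.prod_pos fun p hp => ?_
      exact ((Finset.mem_filter.1 (hTP hp)).2).pos
    have hpdR : (0 : ℝ) < (pd T : ℝ) := by exact_mod_cast hpd
    by_cases hcase : X ^ δ ≤ (pd T : ℝ)
    · have h1 : (A.filter fun s => (s.primeFactors.filter fun p : ℕ => (p : ℝ) ≤ y) = T) ⊆
          (Finset.Ioc 0 ⌊Z⌋₊).filter (fun s => pd T ∣ s) := by
        intro s hs
        obtain ⟨h2, h3⟩ := Finset.mem_filter.1 hs
        obtain ⟨h4, h5⟩ := Finset.mem_filter.1 h2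
        obtain ⟨h6, h7⟩ := Finset.mem_Icc.1 h4
        rw [Finset.mem_filter, Finset.mem_Ioc]
        refine ⟨⟨by omega, h7⟩, ?_⟩
        rw [← h3]
        calc pd (s.primeFactors.filter fun p : ℕ => (p : ℝ) ≤ y) ∣ pd s.primeFactors :=
              Finset.prod_dvd_prod_of_subset _ _ _ (Finset.filter_subset _ _)
          _ ∣ s := Nat.prod_primeFactors_dvd s
      have h2 : ((A.filter fun s => (s.primeFactors.filter fun p : ℕ => (p : ℝ) ≤ y) = T).card : ℝ) ≤
          Z / pd T := by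
        have h3 := Finset.card_le_card h1
        rw [Nat.Ioc_filter_dvd_card_eq_div] at h3
        calc ((A.filter fun s => (s.primeFactors.filter fun p : ℕ => (p : ℝ) ≤ y) = T).card : ℝ) ≤
            ((⌊Z⌋₊ / pd T : ℕ) : ℝ) := by exact_mod_cast h3
          _ ≤ (⌊Z⌋₊ : ℝ) / (pd T : ℝ) := Nat.cast_div_le
          _ ≤ Z / pd T := div_le_div_of_nonneg_right (Nat.floor_le hZ) hpdR.le
      refine h2.trans ?_
      have h4 : 1 ≤ (X ^ (-(δ * a))) * (pd T : ℝ) ^ a := by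
        have h5 : (X ^ δ) ^ a ≤ (pd T : ℝ) ^ a :=
          Real.rpow_le_rpow (by positivity) hcase ha0.le
        rw [← Real.rpow_mul hX0.le] at h5
        calc (1 : ℝ) = X ^ (-(δ * a)) * X ^ (δ * a) := by
              rw [← Real.rpow_add hX0]; simp
          _ ≤ _ := mul_le_mul_of_nonneg_left h5 (by positivity)
      calc Z / pd T = Z / pd T * 1 := (mul_one _).symm
        _ ≤ Z / pd T * ((X ^ (-(δ * a))) * (pd T : ℝ) ^ a) :=
          mul_le_mul_of_nonneg_left h4 (by positivity)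
        _ = Z * X ^ (-(δ * a)) * (pd T : ℝ) ^ (a - 1) := by
          rw [Real.rpow_sub hpdR, Real.rpow_one]
          ring
    · have h1 : (A.filter fun s => (s.primeFactors.filter fun p : ℕ => (p : ℝ) ≤ y) = T) = ∅ := by
        rw [Finset.filter_eq_empty_iff]
        intro s hs h2
        rw [← h2] at hcase
        exact hcase (Finset.mem_filter.1 hs).2.2
      rw [h1]
      simp only [Finset.card_empty, Nat.cast_zero]
      positivity
  have h1 : (A.card : ℝ) ≤ Z * X ^ (-(δ * a)) * Real.exp ((⌊y⌋₊ : ℝ) ^ a / a) := by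
    rw [hcard]
    push_cast
    calc _ ≤ ∑ T ∈ P.powerset, Z * X ^ (-(δ * a)) * (pd T : ℝ) ^ (a - 1) :=
          Finset.sum_le_sum hfib
      _ = Z * X ^ (-(δ * a)) * ∑ T ∈ P.powerset, (pd T : ℝ) ^ (a - 1) := by rw [Finset.mul_sum]
      _ ≤ _ := mul_le_mul_of_nonneg_left
          (sum_powerset_le (Finset.filter_subset _ _) ha0 ha1) (by positivity)
  refine h1.trans ?_
  have h2 : (⌊y⌋₊ : ℝ) ^ a / a ≤ 2 * K * Real.sqrt L := by
    have h3 : (⌊y⌋₊ : ℝ) ^ a ≤ y ^ a :=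
      Real.rpow_le_rpow (Nat.cast_nonneg _) (Nat.floor_le hy0.le) ha0.le
    have h4 : y ^ a = Real.sqrt L := by
      rw [hy, ← Real.rpow_mul hL0.le, Real.sqrt_eq_rpow]
      congr 1
      rw [ha]
      field_simp
    rw [h4] at h3
    have h5 : (⌊y⌋₊ : ℝ) ^ a / a = 2 * K * (⌊y⌋₊ : ℝ) ^ a := by
      rw [ha]
      field_simp
    rw [h5]
    exact mul_le_mul_of_nonneg_left h3 (by positivity)
  have h6 : 2 * K * Real.sqrt L ≤ δ / (4 * K) * L + 4 * K ^ 3 / δ := by
    have h7 : 0 ≤ (Real.sqrt L * (δ / (4 * K)) - K) ^ 2 := sq_nonneg _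
    have h8 : Real.sqrt L ^ 2 = L := Real.sq_sqrt hL0.le
    have h9 : δ / (4 * K) * L + 4 * K ^ 3 / δ - 2 * K * Real.sqrt L =
        (4 * K / δ) * (Real.sqrt L * (δ / (4 * K)) - K) ^ 2 := by
      have h10 : (Real.sqrt L * (δ / (4 * K)) - K) ^ 2 =
          L * (δ / (4 * K)) ^ 2 - 2 * Real.sqrt L * (δ / (4 * K)) * K + K ^ 2 := by
        rw [sub_sq, mul_pow, h8]
        ring
      rw [h10]
      field_simp
      ring
    have h11 : 0 ≤ (4 * K / δ) * (Real.sqrt L * (δ / (4 * K)) - K) ^ 2 := by positivity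
    linarith
  calc Z * X ^ (-(δ * a)) * Real.exp ((⌊y⌋₊ : ℝ) ^ a / a) ≤
      Z * X ^ (-(δ * a)) * Real.exp (δ / (4 * K) * L + 4 * K ^ 3 / δ) := by
        refine mul_le_mul_of_nonneg_left (Real.exp_le_exp.2 (h2.trans h6)) (by positivity)
    _ = Real.exp (4 * K ^ 3 / δ) * Z * X ^ (-(δ / (4 * K))) := by
        rw [Real.exp_add, Real.rpow_def_of_pos hX0, Real.rpow_def_of_pos hX0, ← hL]
        have h12 : Real.exp (L * -(δ * a)) * Real.exp (δ / (4 * K) * L) =
            Real.exp (L * -(δ / (4 * K))) := by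
          rw [← Real.exp_add]
          congr 1
          rw [ha]
          field_simp
          ring
        rw [← h12]
        ring

end Pool.Agent.H50.AG
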